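import Pool.Agent.helper25.TW.Spec2

set_option autoImplicit false

namespace TP.TW

open DP MeasureTheory Finset

theorem VIT_greedy (h : V → ℕ) : ∀ (n : ℕ) (S : Finset V), #S = n → ∃ I : Finset V, I ⊆ S ∧
    (∀ i ∈ I, ∀ i' ∈ I, i ≠ i' → 2 ^ h i + 2 ^ h i' < sd i i') ∧
    ∀ a ∈ S, ∃ i ∈ I, h a ≤ h i ∧ sd a i ≤ 2 ^ h a + 2 ^ h i := by
  intro n
  induction n using Nat.strong_induction_on with
  | _ n ih =>
    intro S hS
    rcases S.eq_empty_or_nonempty with rfl | hne
    · exact ⟨∅, Finset.Subset.refl _, by simp, by simp⟩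
    · obtain ⟨m, hm, hmax⟩ := Finset.exists_max_image S h hne
      set S' := S.filter (fun a => 2 ^ h a + 2 ^ h m < sd a m) with hS'
      have hmS' : m ∉ S' := by
        intro hc
        have := (Finset.mem_filter.1 hc).2
        rw [sd_self] at this
        exact absurd this (Nat.not_lt_zero _)
      have hsub : S' ⊆ S := Finset.filter_subset _ _
      have hlt : #S' < n := by
        rw [← hS]
        exact Finset.card_lt_card ⟨hsub, fun hc => hmS' (hc hm)⟩
      obtain ⟨I', hI'S, h1, h2⟩ := ih _ hlt S' rfl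
      refine ⟨insert m I', ?_, ?_, ?_⟩
      · intro x hx
        rcases Finset.mem_insert.1 hx with rfl | hx
        · exact hm
        · exact hsub (hI'S hx)
      · intro i hi i' hi' hne'
        rcases Finset.mem_insert.1 hi with rfl | hi2
        · rcases Finset.mem_insert.1 hi' with rfl | hi2'
          · exact absurd rfl hne'
          · have := (Finset.mem_filter.1 (hI'S hi2')).2
            rw [sd_comm]
            omega
        · rcases Finset.mem_insert.1 hi' with rfl | hi2'
          · exact (Finset.mem_filter.1 (hI'S hi2)).2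
          · exact h1 i hi2 i' hi2' hne'
      · intro a ha
        by_cases hc : 2 ^ h a + 2 ^ h m < sd a m
        · obtain ⟨i, hi, h3⟩ := h2 a (Finset.mem_filter.2 ⟨ha, hc⟩)
          exact ⟨i, Finset.mem_insert_of_mem hi, h3⟩
        · exact ⟨m, Finset.mem_insert_self _ _, hmax a ha, not_lt.1 hc⟩

theorem VIT : VIT_stmt := by
  classical
  intro R S hR
  let P : V → ℕ → Prop := fun a j => 4 ^ j ≤ R * #(S.filter fun b => sd a b ≤ 2 ^ j)
  let h : V → ℕ := fun a => Nat.findGreatest (P a) (R * #S)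
  have hP : ∀ a ∈ S, P a (h a) := by
    intro a ha
    have h0 : P a 0 := by
      have h1 : 1 ≤ #(S.filter fun b => sd a b ≤ 2 ^ 0) := by
        refine Finset.card_pos.2 ⟨a, Finset.mem_filter.2 ⟨ha, ?_⟩⟩
        rw [sd_self]
        exact Nat.zero_le _
      have h2 : 1 * 1 ≤ R * #(S.filter fun b => sd a b ≤ 2 ^ 0) := Nat.mul_le_mul hR h1
      show 4 ^ 0 ≤ R * #(S.filter fun b => sd a b ≤ 2 ^ 0)
      rw [pow_zero (4 : ℕ)]
      omega
    exact Nat.findGreatest_spec (P := P a) (Nat.zero_le _) h0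
  have hlow : ∀ a, Low R S a (h a) := by
    intro a j hj
    by_cases hjb : j ≤ R * #S
    · have := Nat.findGreatest_is_greatest (P := P a) hj hjb
      exact le_of_lt (not_le.1 this)
    · have h1 : #(S.filter fun b => sd a b ≤ 2 ^ j) ≤ #S := Finset.card_le_card (Finset.filter_subset _ _)
      have h2 : R * #(S.filter fun b => sd a b ≤ 2 ^ j) ≤ R * #S := Nat.mul_le_mul_left _ h1
      have h3 : j < 4 ^ j := Nat.lt_pow_self (by norm_num)
      omega
  obtain ⟨I, hIS, h1, h2⟩ := VIT_greedy h _ S rfl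
  refine ⟨I, h, ?_, ?_, fun i _ => hlow i⟩
  · intro a ha
    obtain ⟨i, hi, h3, h4⟩ := h2 a ha
    refine ⟨i, hi, ?_⟩
    have : 2 ^ h a ≤ 2 ^ h i := Nat.pow_le_pow_right (by norm_num) h3
    omega
  · have hdis : ∀ i ∈ I, ∀ i' ∈ I, i ≠ i' →
        Disjoint (S.filter fun b => sd i b ≤ 2 ^ h i) (S.filter fun b => sd i' b ≤ 2 ^ h i') := by
      intro i hi i' hi' hne
      rw [Finset.disjoint_left]
      intro b hb hb'
      have e1 := (Finset.mem_filter.1 hb).2
      have e2 := (Finset.mem_filter.1 hb').2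
      have e3 := sd_triangle i b i'
      rw [sd_comm b i'] at e3
      have e4 := h1 i hi i' hi' hne
      omega
    have hcard : ∑ i ∈ I, #(S.filter fun b => sd i b ≤ 2 ^ h i) ≤ #S := by
      rw [← Finset.card_biUnion hdis]
      refine Finset.card_le_card ?_
      intro b hb
      obtain ⟨i, _, hi⟩ := Finset.mem_biUnion.1 hb
      exact (Finset.mem_filter.1 hi).1
    calc ∑ i ∈ I, 4 ^ h i ≤ ∑ i ∈ I, R * #(S.filter fun b => sd i b ≤ 2 ^ h i) :=
          Finset.sum_le_sum fun i hi => hP i (hIS hi)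
      _ = R * ∑ i ∈ I, #(S.filter fun b => sd i b ≤ 2 ^ h i) := by rw [Finset.mul_sum]
      _ ≤ R * #S := Nat.mul_le_mul_left _ hcard

end TP.TW
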